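import Pool.Agent.Helper3.WT.St.Stubs

/-! Project WT: pieces C2 (`sys_exists`) and C6 (`lower`). -/

set_option autoImplicit false

namespace Pool.Agent.Helper8.WT

open Finset Filter
open Pool.Agent.Helper48.ET
open Pool.Agent.Helper3.WT
open Pool.Agent.Helper3.WT.St (Sized params comp_exists lower_comb loss part_card part_lt)

/-- WT-C2 (Bertrand, `comp_exists`, `params`) -/
theorem sys_exists : ∃ (σ : Sys) (n : ℕ → ℕ), Sized σ n ∧
    (∀ e : ℝ, 0 < e → ∀ᶠ k in atTop, (n (k + 1) : ℝ) ≤ (1 + e) * n k) ∧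
    (∀ e : ℝ, 0 < e → ∀ᶠ k in atTop,
      ∑ j ∈ range (k + 1), Real.logb 2 (σ.G j : ℝ) ≤ e * n k) := by
  obtain ⟨n, C, hC8, hCe, hmono, hP0, hr, hG⟩ := params
  have hB : ∀ k, ∃ p : ℕ, p.Prime ∧ 2 ^ 2 ^ n k < p ∧ p ≤ 2 * 2 ^ 2 ^ n k := fun k =>
    Nat.exists_prime_lt_and_le_two_mul _ (by positivity)
  choose p hpp hp1 hp2 using hB
  have hcomp : ∀ k, ∃ (T : Set ℕ) (S : ℕ → Set ℕ),
      Comp (p k) (2 ^ n (k + 1)) (GG (C k) (2 ^ n (k + 1))) T S := by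
    intro k
    have h1 : P0 (C k) (2 ^ n (k + 1)) < p k := (hP0 k).trans (hp1 k)
    have h2 : 2 ^ n (k + 1) < p k := by
      refine lt_of_le_of_lt ?_ h1
      unfold P0
      nlinarith [Nat.zero_le (2 ^ n (k + 1) * (2 * Del (C k)))]
    have h3 : 2 ≤ 2 ^ n (k + 1) := by
      have := hmono k
      calc 2 = 2 ^ 1 := rfl
        _ ≤ 2 ^ n (k + 1) := Nat.pow_le_pow_right (by norm_num) (by omega)
    exact comp_exists (hC8 k) (hCe k) h3 (hpp k) h1 h2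
  choose T S hTS using hcomp
  refine ⟨⟨p, fun k => 2 ^ n (k + 1), fun k => GG (C k) (2 ^ n (k + 1)), T, S, hTS⟩, n,
    ⟨hmono, fun _ => rfl, hp1, fun k => ?_⟩, hr, hG⟩
  have := hp2 k
  rw [pow_succ]
  simp only
  omega

/-- WT-C6 -/
theorem lower {σ : Sys} {n : ℕ → ℕ} (hs : Sized σ n)
    (hr : ∀ e : ℝ, 0 < e → ∀ᶠ k in atTop, (n (k + 1) : ℝ) ≤ (1 + e) * n k) :
    ∀ e : ℝ, 0 < e → ∀ᶠ x : ℕ in atTop,
      Real.sqrt x * Real.exp (-(Real.log x ^ (1 / 2 + e))) ≤ ((σ.A ∩ Set.Iio x).ncard : ℝ) := by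
  intro e he
  filter_upwards [loss hs hr e he, eventually_ge_atTop (σ.W 1 * (2 * σ.p 1) ^ 4)] with x hx1 hx2
  obtain ⟨K, N, hK, hN2, hNM, hle, hlt, hmain⟩ := lower_comb hs hx2
  have h1 := hx1 K N hK hN2 hNM hle hlt
  set P : ℕ := (∏ j ∈ range K, σ.p j ^ (σ.M j - 1)) * σ.p K ^ (N - 2) with hP
  have hsub : σ.Part K N ⊆ σ.A ∩ Set.Iio x := by
    intro a ha
    refine ⟨⟨K, N, hN2, hNM, ha⟩, ?_⟩
    have := part_lt σ hN2 hNM a ha
    simp only [Set.mem_Iio]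
    omega
  have hcard : P ≤ (σ.A ∩ Set.Iio x).ncard :=
    (part_card σ hN2 hNM).trans
      (Set.ncard_le_ncard hsub ((Set.finite_Iio x).subset Set.inter_subset_right))
  have hcard' : (P : ℝ) ≤ ((σ.A ∩ Set.Iio x).ncard : ℝ) := by exact_mod_cast hcard
  have h2 : Real.sqrt x ≤ (2 : ℝ) ^ (16 * (2 ^ n K + N)) * P := by
    apply Real.sqrt_le_iff.2
    refine ⟨by positivity, ?_⟩
    exact_mod_cast hmain
  have h3 : Real.sqrt x ≤ Real.exp (Real.log x ^ (1 / 2 + e)) * P :=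
    h2.trans (mul_le_mul_of_nonneg_right h1 (by positivity))
  rw [Real.exp_neg, ← div_eq_mul_inv, div_le_iff₀ (Real.exp_pos _)]
  calc Real.sqrt x ≤ Real.exp (Real.log x ^ (1 / 2 + e)) * P := h3
    _ = P * Real.exp (Real.log x ^ (1 / 2 + e)) := mul_comm _ _
    _ ≤ _ := mul_le_mul_of_nonneg_right hcard' (Real.exp_pos _).le

end Pool.Agent.Helper8.WT
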